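import Pool.Agent.H73.SL.Core

set_option autoImplicit false

open CircleDeg1Lift Set

namespace Pool.Agent.H73.SL

open Pool.Agent.Helper29.Rot

section Words

variable {ι : Type}

/-- the values `rot w(A)` for `A i` conjugate to the translation by `r i` -/
def conjSet (w : FreeGroup ι) (r : ι → ℝ) : Set ℝ :=
  {t | ∃ A : ι → G, (∀ i, IsConj (A i) (translate (Multiplicative.ofAdd (r i)))) ∧
      t = translationNumber (FreeGroup.lift A w : CircleDeg1Lift)}

/-- the values `rot w(A)` for `rot (A i) = r i` -/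
def rotSetI (w : FreeGroup ι) (r : ι → ℝ) : Set ℝ :=
  {t | ∃ A : ι → G, (∀ i, translationNumber (A i : CircleDeg1Lift) = r i) ∧
      t = translationNumber (FreeGroup.lift A w : CircleDeg1Lift)}

theorem tau_trans (A : G) (t : ℝ) (h : IsConj A (translate (Multiplicative.ofAdd t))) :
    translationNumber (A : CircleDeg1Lift) = t := tau_of_conj h

theorem conjSet_sub (w : FreeGroup ι) (r : ι → ℝ) : conjSet w r ⊆ rotSetI w r := by
  rintro _ ⟨A, hA, rfl⟩
  exact ⟨A, fun i => tau_of_conj (hA i), rfl⟩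

theorem word_bound_I [Finite ι] (r : ι → ℝ) (w : FreeGroup ι) : ∃ K : ℝ, ∀ A : ι → G,
    (∀ i, translationNumber (A i : CircleDeg1Lift) = r i) →
    ∀ x : ℝ, |(FreeGroup.lift A w : CircleDeg1Lift) x - x| ≤ K := by
  induction w using FreeGroup.induction_on with
  | C1 =>
    refine ⟨0, fun A _ x => ?_⟩
    simp
  | of i =>
    refine ⟨|r i| + 1, fun A hA x => ?_⟩
    have b := unit_bound (A i) x
    rw [hA i] at b
    rw [FreeGroup.lift_apply_of]
    exact b
  | inv_of i _ =>
    refine ⟨|r i| + 1, fun A hA x => ?_⟩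
    have b := unit_bound (A i) (((A i)⁻¹ : G) x)
    rw [hA i, units_apply_inv_apply] at b
    rw [map_inv, FreeGroup.lift_apply_of, abs_sub_comm]
    exact b
  | mul a b ha hb =>
    obtain ⟨K1, h1⟩ := ha
    obtain ⟨K2, h2⟩ := hb
    refine ⟨K1 + K2, fun A c0 x => ?_⟩
    rw [map_mul, Units.val_mul, mul_apply]
    have d1 := h1 A c0 ((FreeGroup.lift A b : CircleDeg1Lift) x)
    have d2 := h2 A c0 x
    have e : (FreeGroup.lift A a : CircleDeg1Lift) ((FreeGroup.lift A b : CircleDeg1Lift) x) - x =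
      ((FreeGroup.lift A a : CircleDeg1Lift) ((FreeGroup.lift A b : CircleDeg1Lift) x)
        - (FreeGroup.lift A b : CircleDeg1Lift) x) +
        ((FreeGroup.lift A b : CircleDeg1Lift) x - x) := by ring
    rw [e]
    exact (abs_add_le _ _).trans (add_le_add d1 d2)

theorem rotSetI_bdd [Finite ι] (w : FreeGroup ι) (r : ι → ℝ) : BddAbove (rotSetI w r) := by
  obtain ⟨K, hK⟩ := word_bound_I r w
  refine ⟨K, ?_⟩
  rintro _ ⟨A, h0, rfl⟩
  refine translationNumber_le_of_le_add _ fun x => ?_
  have := (abs_le.1 (hK A h0 x)).2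
  linarith

theorem conjSet_nonempty (w : FreeGroup ι) (r : ι → ℝ) : (conjSet w r).Nonempty :=
  ⟨_, fun i => translate (Multiplicative.ofAdd (r i)), fun _ => IsConj.refl _, rfl⟩

/-- the perturbed representation -/
noncomputable def RR (cc : ι → G) (rr : ι → ℝ) (δ : ℝ) : FreeGroup ι →* G :=
  FreeGroup.lift (fun i => (cc i)⁻¹ * translate (Multiplicative.ofAdd (rr i - δ)) * cc i)

theorem RR_of (cc : ι → G) (rr : ι → ℝ) (δ : ℝ) (i : ι) :
    RR cc rr δ (FreeGroup.of i) =
      (cc i)⁻¹ * translate (Multiplicative.ofAdd (rr i - δ)) * cc i :=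
  FreeGroup.lift_apply_of

theorem RR_cont (cc : ι → G) (rr : ι → ℝ) (v : FreeGroup ι) :
    Continuous fun p : ℝ × ℝ => ((RR cc rr p.1 v : G) : CircleDeg1Lift) p.2 := by
  induction v using FreeGroup.induction_on with
  | C1 =>
    simp only [map_one, Units.val_one, coe_one, id]
    exact continuous_snd
  | of i =>
    have h : ∀ p : ℝ × ℝ, ((RR cc rr p.1 (FreeGroup.of i) : G) : CircleDeg1Lift) p.2 =
        ((cc i)⁻¹ : G) ((rr i - p.1) + (cc i : CircleDeg1Lift) p.2) := by
      intro p
      rw [RR_of, Units.val_mul, Units.val_mul, mul_apply, mul_apply, CircleDeg1Lift.translate_apply]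
    simp only [h]
    exact (ab_cont79 _).comp ((continuous_const.sub continuous_fst).add
      ((ab_cont79 _).comp continuous_snd))
  | inv_of i _ =>
    have h : ∀ p : ℝ × ℝ, ((RR cc rr p.1 (FreeGroup.of i)⁻¹ : G) : CircleDeg1Lift) p.2 =
        ((cc i)⁻¹ : G) (-(rr i - p.1) + (cc i : CircleDeg1Lift) p.2) := by
      intro p
      have e : RR cc rr p.1 (FreeGroup.of i)⁻¹ =
          (cc i)⁻¹ * translate (Multiplicative.ofAdd (-(rr i - p.1))) * cc i := by
        rw [map_inv, RR_of, ofAdd_neg, map_inv]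
        group
      rw [e, Units.val_mul, Units.val_mul, mul_apply, mul_apply, CircleDeg1Lift.translate_apply]
    simp only [h]
    exact (ab_cont79 _).comp ((continuous_const.sub continuous_fst).neg.add
      ((ab_cont79 _).comp continuous_snd))
  | mul u v hu hv =>
    have h : ∀ p : ℝ × ℝ, ((RR cc rr p.1 (u * v) : G) : CircleDeg1Lift) p.2 =
        ((RR cc rr p.1 u : G) : CircleDeg1Lift) (((RR cc rr p.1 v : G) : CircleDeg1Lift) p.2) := by
      intro p
      rw [map_mul, Units.val_mul, mul_apply]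
    simp only [h]
    exact hu.comp (continuous_fst.prodMk hv)

theorem RR_cont0 (cc : ι → G) (rr : ι → ℝ) (v : FreeGroup ι) (x : ℝ) :
    Continuous fun δ : ℝ => ((RR cc rr δ v : G) : CircleDeg1Lift) x := by
  have h1 : Continuous fun δ : ℝ => ((δ, x) : ℝ × ℝ) := by fun_prop
  have h2 := (RR_cont cc rr v).comp h1
  exact h2

/-- a value below the supremum is exceeded for slightly smaller rotation numbers -/
theorem approx_below_I (w : FreeGroup ι) (r : ι → ℝ) (θ : ℝ) (hsup : IsLUB (conjSet w r) θ)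
    (e : ℝ) (he : 0 < e) :
    ∃ A : ι → G, (∀ i, r i - e ≤ translationNumber (A i : CircleDeg1Lift) ∧
      translationNumber (A i : CircleDeg1Lift) < r i) ∧
      θ - e < translationNumber (FreeGroup.lift A w : CircleDeg1Lift) := by
  obtain ⟨t, ⟨A0, hr, rfl⟩, ht, -⟩ := hsup.exists_between (show θ - e < θ by linarith)
  obtain ⟨q, hq1, hq2⟩ := exists_rat_btwn ht
  choose c hc using fun i => isConj_iff.1 (hr i)
  have hden : (0 : ℝ) < q.den := by exact_mod_cast q.den_pos
  have hqM : (q : ℝ) * q.den = q.num := by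
    have := Rat.mul_den_eq_num q
    exact_mod_cast this
  have h0 : RR c r 0 = FreeGroup.lift A0 := by
    apply FreeGroup.ext_hom
    intro i
    rw [RR_of, FreeGroup.lift_apply_of, sub_zero, ← hc i]
    group
  have hcont : Continuous fun δ : ℝ => ((RR c r δ (w ^ q.den) : G) : CircleDeg1Lift) 0 :=
    RR_cont0 c r _ 0
  have hpow : ∀ ρ : FreeGroup ι →* G, translationNumber ((ρ (w ^ q.den) : G) : CircleDeg1Lift)
      = q.den * translationNumber ((ρ w : G) : CircleDeg1Lift) := by
    intro ρ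
    rw [map_pow, Units.val_pow_eq_pow_val, translationNumber_pow]
  have hM0 : ((q.num : ℤ) : ℝ) < ((RR c r 0 (w ^ q.den) : G) : CircleDeg1Lift) 0 := by
    rw [h0]
    have h1 : ((q.num : ℤ) : ℝ)
        < translationNumber ((FreeGroup.lift A0 (w ^ q.den) : G) : CircleDeg1Lift) := by
      rw [hpow, ← hqM]
      nlinarith
    have h2 := lt_map_of_int_lt_translationNumber _ h1 0
    simpa using h2
  have hev : ∀ᶠ δ in nhdsWithin (0:ℝ) (Ioi 0),
      ((q.num : ℤ) : ℝ) < ((RR c r δ (w ^ q.den) : G) : CircleDeg1Lift) 0 :=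
    ((hcont.tendsto 0).eventually (Ioi_mem_nhds hM0)).filter_mono nhdsWithin_le_nhds
  obtain ⟨δ, hδ1, hδ2⟩ := (hev.and (Ioo_mem_nhdsGT he)).exists
  have hτ : ∀ i, translationNumber (((c i)⁻¹ * translate (Multiplicative.ofAdd (r i - δ)) * c i : G) :
      CircleDeg1Lift) = r i - δ := by
    intro i
    rw [Units.val_mul, Units.val_mul, translationNumber_conj_eq', translationNumber_translate]
  refine ⟨fun i => (c i)⁻¹ * translate (Multiplicative.ofAdd (r i - δ)) * c i,
    fun i => ⟨?_, ?_⟩, ?_⟩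
  · rw [hτ]
    linarith [hδ2.2]
  · rw [hτ]
    linarith [hδ2.1]
  · have h3 : ((q.num : ℤ) : ℝ) ≤ translationNumber ((RR c r δ (w ^ q.den) : G) : CircleDeg1Lift) := by
      by_contra hlt
      have h4 := map_lt_of_translationNumber_lt_int _ (not_le.1 hlt) 0
      rw [zero_add] at h4
      linarith
    rw [hpow, ← hqM] at h3
    have h5 : (q : ℝ) ≤ translationNumber ((RR c r δ w : G) : CircleDeg1Lift) := by
      have : (q.den : ℝ) * q ≤ q.den * translationNumber ((RR c r δ w : G) : CircleDeg1Lift) := by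
        linarith
      exact le_of_mul_le_mul_left this hden
    show θ - e < translationNumber ((RR c r δ w : G) : CircleDeg1Lift)
    linarith

end Words

end Pool.Agent.H73.SL
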