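import Pool.Graph.R_seed8.Helper29.RotS4

set_option autoImplicit false

open CircleDeg1Lift Set

namespace Pool.Agent.H73.SL

open Pool.Agent.Helper29.Rot

variable {ι : Type} [Fintype ι] [DecidableEq ι]

/-- the exponents of the perturbation of the generator `i` -/
def dl (cls : ℕ → ι) (i : ι) (j : ℕ) : ℤ := if cls j = i then 1 else 0

theorem sum_dl (cls : ℕ → ι) (j : ℕ) : ∑ i : ι, dl cls i j = 1 := by
  unfold dl
  rw [Finset.sum_ite_eq]
  simp

theorem sum_expo_dl (ℓ : ℕ) (cls : ℕ → ι) (k : ℕ) : ∑ i : ι, expo ℓ (dl cls i) k = 0 := by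
  unfold expo
  rw [Finset.sum_sub_distrib]
  split_ifs <;> rw [sum_dl, sum_dl, sub_self]

/-- The averaging identity for any number of generators: if each of the functions
`D_i x = ∑ ε_k f_k x` is constant up to `η`, the translation number is the one of the
abelianised word up to an error. -/
theorem avg_identity (ℓ : ℕ) (hℓ : 0 < ℓ) (A : ι → G) (cls : ℕ → ι) (σ : ℕ → ℤ)
    (hσ : ∀ k, σ k = 1 ∨ σ k = -1) (g : ℕ → G)
    (hg : ∀ k, g k = A (cls k) ^ (σ k))
    (f : ℕ → G) (t κ : ℝ)
    (h1 : ∀ k, k + 1 < ℓ → ∀ x : ℝ, f (k + 1) (g k x) = f k x)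
    (h2 : ∀ x : ℝ, |f 0 (g (ℓ - 1) x) - f (ℓ - 1) x - t| ≤ κ)
    (cst : ι → ℝ) (η : ℝ)
    (hD : ∀ i : ι, ∀ x : ℝ, |∑ k ∈ Finset.range ℓ,
      ((expo ℓ (dl cls i) k : ℤ) : ℝ) * f k x - cst i| ≤ η) :
    |t - ∑ k ∈ Finset.range ℓ, (σ k : ℝ) * translationNumber (A (cls k) : CircleDeg1Lift)|
      ≤ 2 * ((Fintype.card ι : ℝ) * η) + κ := by
  obtain ⟨m, rfl⟩ : ∃ m, ℓ = m + 1 := ⟨ℓ - 1, by omega⟩
  simp only [Nat.add_sub_cancel] at h2
  let Fc : ℕ → G := fun k => if k < m then f (k + 1) else f 0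
  have hFc1 : ∀ k, k < m → Fc k = f (k + 1) := fun k hk => by simp [Fc, hk]
  have hFc2 : Fc m = f 0 := by simp [Fc]
  have hκ : 0 ≤ κ := le_trans (abs_nonneg _) (h2 0)
  -- rearrangement of D
  have hDeq : ∀ (i : ι) (x : ℝ), ∑ k ∈ Finset.range (m + 1),
      ((expo (m + 1) (dl cls i) k : ℤ) : ℝ) * f k x
      = ∑ k ∈ Finset.range (m + 1), (if cls k = i then (1 : ℝ) else 0) * (Fc k x - f k x) := by
    intro i x
    have e1 : ∀ k, ((expo (m + 1) (dl cls i) k : ℤ) : ℝ) * f k x
        = (if k = 0 then (if cls m = i then (1 : ℝ) else 0)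
            else (if cls (k - 1) = i then (1 : ℝ) else 0)) * f k x
          - (if cls k = i then (1 : ℝ) else 0) * f k x := by
      intro k
      simp only [expo, dl, Nat.add_sub_cancel]
      push_cast
      rw [sub_mul]
    rw [Finset.sum_congr rfl fun k _ => e1 k, Finset.sum_sub_distrib]
    simp only [mul_sub]
    rw [Finset.sum_sub_distrib]
    congr 1
    rw [Finset.sum_range_succ', Finset.sum_range_succ, hFc2]
    simp only [if_true, Nat.add_sub_cancel, Nat.add_eq_zero_iff, one_ne_zero, and_false, if_false]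
    congr 1
    refine Finset.sum_congr rfl fun k hk => ?_
    rw [hFc1 k (Finset.mem_range.1 hk)]
  -- the shift relation
  have hshift : ∀ k, k < m → ∀ x : ℝ, Fc k x - f k x = Fc k x - Fc k (g k x) := by
    intro k hk x
    rw [hFc1 k hk, h1 k (by omega) x]
  have hshift2 : ∀ x : ℝ, |(Fc m x - f m x) - ((Fc m x - Fc m (g m x)) + t)| ≤ κ := by
    intro x
    rw [hFc2]
    have := h2 x
    have e : (f 0 x - f m x : ℝ) - ((f 0 x - f 0 (g m x)) + t) = f 0 (g m x) - f m x - t := by ring
    rw [e]; exact this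
  have hcomp : ∀ (w : ℕ → ℝ), (∀ k, w k = 0 ∨ w k = 1) → ∀ x : ℝ,
      |∑ k ∈ Finset.range (m + 1), w k * (Fc k x - f k x)
        - (∑ k ∈ Finset.range (m + 1), w k * (Fc k x - Fc k (g k x)) + w m * t)| ≤ w m * κ := by
    intro w hw x
    rw [Finset.sum_range_succ, Finset.sum_range_succ]
    rw [Finset.sum_congr rfl fun k hk => by rw [hshift k (Finset.mem_range.1 hk) x]]
    have e : ∀ S a b : ℝ, S + w m * a - (S + w m * b + w m * t) = w m * (a - (b + t)) := by
      intro S a b; ring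
    rw [e, abs_mul]
    have hwm : 0 ≤ w m := by rcases hw m with h | h <;> rw [h] <;> norm_num
    rw [abs_of_nonneg hwm]
    exact mul_le_mul_of_nonneg_left (hshift2 x) hwm
  -- the part of the generator `i`
  have hAp : ∀ i : ι, |(-((∑ k ∈ (Finset.range (m + 1)).filter (fun k => cls k = i), (σ k : ℝ)) *
      translationNumber (A i : CircleDeg1Lift)))
      - (cst i - (if cls m = i then (1 : ℝ) else 0) * t)|
        ≤ η + (if cls m = i then (1 : ℝ) else 0) * κ := by
    intro i
    apply avg_lim (A i) _ rfl _ Fc σ hσ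
    intro x
    have hc := hcomp (fun k => if cls k = i then (1 : ℝ) else 0)
      (fun k => by by_cases h : cls k = i <;> simp [h]) x
    have hd := hD i x
    rw [hDeq i x] at hd
    have e : ∑ k ∈ (Finset.range (m + 1)).filter (fun k => cls k = i),
        ((Fc k : CircleDeg1Lift) x - (Fc k : CircleDeg1Lift) ((A i ^ σ k : G) x))
        = ∑ k ∈ Finset.range (m + 1), (if cls k = i then (1 : ℝ) else 0) * (Fc k x - Fc k (g k x)) := by
      rw [Finset.sum_filter]
      refine Finset.sum_congr rfl fun k _ => ?_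
      by_cases h : cls k = i
      · rw [hg k]; simp [h]
      · simp [h]
    rw [e]
    rw [abs_le] at hc hd ⊢
    constructor <;> linarith [hc.1, hc.2, hd.1, hd.2]
  -- the sum of the constants
  have hcst : |∑ i : ι, cst i| ≤ (Fintype.card ι : ℝ) * η := by
    have e0 : ∑ i : ι, (∑ k ∈ Finset.range (m + 1),
        ((expo (m + 1) (dl cls i) k : ℤ) : ℝ) * f k (0 : ℝ) - cst i) = - ∑ i : ι, cst i := by
      rw [Finset.sum_sub_distrib, Finset.sum_comm]
      have : ∑ k ∈ Finset.range (m + 1), ∑ i : ι,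
          ((expo (m + 1) (dl cls i) k : ℤ) : ℝ) * f k (0 : ℝ) = 0 := by
        refine Finset.sum_eq_zero fun k _ => ?_
        rw [← Finset.sum_mul]
        have h := sum_expo_dl (m + 1) cls k
        have h' : ∑ i : ι, ((expo (m + 1) (dl cls i) k : ℤ) : ℝ) = 0 := by
          rw [← Int.cast_sum, h, Int.cast_zero]
        rw [h', zero_mul]
      rw [this, zero_sub]
    rw [← abs_neg, ← e0]
    calc |∑ i : ι, (∑ k ∈ Finset.range (m + 1),
        ((expo (m + 1) (dl cls i) k : ℤ) : ℝ) * f k (0 : ℝ) - cst i)|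
        ≤ ∑ i : ι, |∑ k ∈ Finset.range (m + 1),
          ((expo (m + 1) (dl cls i) k : ℤ) : ℝ) * f k (0 : ℝ) - cst i| :=
          Finset.abs_sum_le_sum_abs _ _
      _ ≤ ∑ _i : ι, η := Finset.sum_le_sum fun i _ => hD i 0
      _ = (Fintype.card ι : ℝ) * η := by simp
  -- sum over the generators
  have hsum : |∑ i : ι, ((-((∑ k ∈ (Finset.range (m + 1)).filter (fun k => cls k = i), (σ k : ℝ)) *
      translationNumber (A i : CircleDeg1Lift)))
      - (cst i - (if cls m = i then (1 : ℝ) else 0) * t))| ≤ (Fintype.card ι : ℝ) * η + κ := by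
    calc _ ≤ ∑ i : ι, |(-((∑ k ∈ (Finset.range (m + 1)).filter (fun k => cls k = i), (σ k : ℝ)) *
      translationNumber (A i : CircleDeg1Lift)))
      - (cst i - (if cls m = i then (1 : ℝ) else 0) * t)| := Finset.abs_sum_le_sum_abs _ _
      _ ≤ ∑ i : ι, (η + (if cls m = i then (1 : ℝ) else 0) * κ) :=
        Finset.sum_le_sum fun i _ => hAp i
      _ = (Fintype.card ι : ℝ) * η + κ := by
        rw [Finset.sum_add_distrib, ← Finset.sum_mul, Finset.sum_ite_eq]
        simp
  have e3 : ∑ i : ι, ((-((∑ k ∈ (Finset.range (m + 1)).filter (fun k => cls k = i), (σ k : ℝ)) *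
      translationNumber (A i : CircleDeg1Lift)))
      - (cst i - (if cls m = i then (1 : ℝ) else 0) * t))
      = t - ∑ k ∈ Finset.range (m + 1), (σ k : ℝ) * translationNumber (A (cls k) : CircleDeg1Lift)
        - ∑ i : ι, cst i := by
    rw [Finset.sum_sub_distrib, Finset.sum_sub_distrib, ← Finset.sum_mul, Finset.sum_ite_eq,
      Finset.sum_neg_distrib]
    have : ∑ i : ι, (∑ k ∈ (Finset.range (m + 1)).filter (fun k => cls k = i), (σ k : ℝ)) *
        translationNumber (A i : CircleDeg1Lift)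
        = ∑ k ∈ Finset.range (m + 1), (σ k : ℝ) *
          translationNumber (A (cls k) : CircleDeg1Lift) := by
      simp only [Finset.sum_mul, Finset.sum_filter]
      rw [Finset.sum_comm]
      refine Finset.sum_congr rfl fun k _ => ?_
      simp only [ite_mul, zero_mul]
      rw [Finset.sum_ite_eq]
      simp
    rw [this]
    simp
    ring
  rw [e3] at hsum
  rw [abs_le] at hsum hcst ⊢
  constructor <;> linarith [hsum.1, hsum.2, hcst.1, hcst.2]

end Pool.Agent.H73.SL
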