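import Pool.Agent.H73.SL.Avg
import Pool.Graph.R_seed8.Helper29.RotS6
import Pool.Graph.R_seed8.Helper29.RotS7

set_option autoImplicit false

open CircleDeg1Lift Set

namespace Pool.Agent.H73.SL

open Pool.Agent.Helper29.Rot

/-! ### words -/

section Words

variable {ι : Type} [DecidableEq ι]

/-- the generator at the place `k` from the right (the value `i₀` beyond the word) -/
def wc (i₀ : ι) (w : FreeGroup ι) (k : ℕ) : ι := (w.toWord.reverse.getD k (i₀, true)).1

/-- its exponent -/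
def ws (i₀ : ι) (w : FreeGroup ι) (k : ℕ) : ℤ :=
  if (w.toWord.reverse.getD k (i₀, true)).2 then 1 else -1

/-- the letters of the word, evaluated at `A` -/
def gg (i₀ : ι) (w : FreeGroup ι) (A : ι → G) (k : ℕ) : G := A (wc i₀ w k) ^ ws i₀ w k

omit [DecidableEq ι] in
theorem map_mk {H : Type} [Group H] (ρ : FreeGroup ι →* H) (L : List (ι × Bool)) :
    ρ (FreeGroup.mk L) = (L.map (fun x : ι × Bool =>
      ρ (FreeGroup.of x.1) ^ (if x.2 then 1 else -1 : ℤ))).prod := by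
  induction L with
  | nil => exact map_one ρ
  | cons x L ih =>
    have e : FreeGroup.mk (x :: L) = FreeGroup.mk [x] * FreeGroup.mk L := by
      rw [FreeGroup.mul_mk]; rfl
    rw [e, map_mul, ih, List.map_cons, List.prod_cons]
    congr 1
    obtain ⟨i, b⟩ := x
    have h1 : FreeGroup.mk [(i, true)] = FreeGroup.of i := rfl
    have h2 : FreeGroup.mk [(i, false)] = (FreeGroup.of i)⁻¹ := rfl
    cases b <;> simp [h1, h2]

theorem word_eq (i₀ : ι) (A : ι → G) (w : FreeGroup ι) :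
    FreeGroup.lift A w = prodSeq (gg i₀ w A) w.toWord.length := by
  have h := j16444_list (fun x : ι × Bool => A x.1 ^ (if x.2 then 1 else -1 : ℤ)) (i₀, true)
    w.toWord.reverse
  rw [List.length_reverse, List.reverse_reverse] at h
  have h2 := map_mk (FreeGroup.lift A) w.toWord
  simp only [FreeGroup.lift_apply_of] at h2
  rw [FreeGroup.mk_toWord] at h2
  rw [h2, ← h]
  rfl

theorem gg_conj (i₀ : ι) (w : FreeGroup ι) (A : ι → G) (ψ : G) (k : ℕ) :
    gg i₀ w (fun i => ψ * A i * ψ⁻¹) k = ψ * gg i₀ w A k * ψ⁻¹ := by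
  unfold gg
  rw [conj_zpow]

theorem ws_pm (i₀ : ι) (w : FreeGroup ι) (k : ℕ) : ws i₀ w k = 1 ∨ ws i₀ w k = -1 := by
  unfold ws
  split_ifs
  · exact Or.inl rfl
  · exact Or.inr rfl

/-- the exponent sum of the generator `i` -/
def expSum (w : FreeGroup ι) (i : ι) : ℤ :=
  Multiplicative.toAdd (FreeGroup.lift (fun j => Multiplicative.ofAdd (if j = i then (1 : ℤ) else 0)) w)

/-- the value of `w` at the real numbers `r i` -/
theorem lin_eq [Fintype ι] (w : FreeGroup ι) (r : ι → ℝ) :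
    Multiplicative.toAdd (FreeGroup.lift (fun j => Multiplicative.ofAdd (r j)) w)
      = ∑ i : ι, (expSum w i : ℝ) * r i := by
  induction w using FreeGroup.induction_on with
  | C1 => simp [expSum]
  | of i => simp [expSum]
  | inv_of i _ => simp [expSum]
  | mul x y hx hy =>
    have e : ∀ i, expSum (x * y) i = expSum x i + expSum y i := by
      intro i
      unfold expSum
      rw [map_mul, toAdd_mul]
    rw [map_mul, toAdd_mul, hx, hy, ← Finset.sum_add_distrib]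
    refine Finset.sum_congr rfl fun i _ => ?_
    rw [e]
    push_cast
    ring

theorem sum_letters [Fintype ι] (i₀ : ι) (w : FreeGroup ι) (r : ι → ℝ) :
    ∑ k ∈ Finset.range w.toWord.length, (ws i₀ w k : ℝ) * r (wc i₀ w k)
      = ∑ i : ι, (expSum w i : ℝ) * r i := by
  rw [← lin_eq]
  have h2 := map_mk (FreeGroup.lift (fun j => Multiplicative.ofAdd (r j))) w.toWord
  simp only [FreeGroup.lift_apply_of] at h2
  rw [FreeGroup.mk_toWord] at h2
  rw [h2]
  have h3 : ∀ L : List (ι × Bool), Multiplicative.toAdd (L.map (fun x : ι × Bool =>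
      Multiplicative.ofAdd (r x.1) ^ (if x.2 then 1 else -1 : ℤ))).prod
      = (L.map (fun x : ι × Bool => ((if x.2 then 1 else -1 : ℤ) : ℝ) * r x.1)).sum := by
    intro L
    induction L with
    | nil => rfl
    | cons x L ih =>
      rw [List.map_cons, List.prod_cons, toAdd_mul, ih, List.map_cons, List.sum_cons]
      congr 1
      rw [toAdd_zpow, toAdd_ofAdd, zsmul_eq_mul]
  rw [h3]
  have h4 := sum_getD w.toWord.reverse (i₀, true)
    (fun x : ι × Bool => ((if x.2 then 1 else -1 : ℤ) : ℝ) * r x.1)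
  rw [List.length_reverse, List.map_reverse, List.sum_reverse] at h4
  rw [← h4]
  rfl

end Words

/-! ### the general principle -/

section Principle

variable {ι : Type} [Fintype ι] [DecidableEq ι]

theorem tau_conj (u A : G) : translationNumber ((u * A * u⁻¹ : G) : CircleDeg1Lift) =
    translationNumber (A : CircleDeg1Lift) := by
  have := translationNumber_conj_eq u (A : CircleDeg1Lift)
  rw [← this]
  rfl

theorem principle_aux (w : FreeGroup ι) (hw : 0 < w.toWord.length) (K : Set (ι → G))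
    (hK : ∀ A ∈ K, ∀ u : ι → G, (fun i => u i * A i * (u i)⁻¹) ∈ K) (r : ι → ℝ) (θ : ℝ)
    (hlt : (∀ A ∈ K, translationNumber (FreeGroup.lift A w : CircleDeg1Lift) < θ) ∨
      (Irrational θ ∧ ∀ A ∈ K, translationNumber (FreeGroup.lift A w : CircleDeg1Lift) ≤ θ))
    (happ : ∀ n : ℕ, ∃ A ∈ K,
      (∀ i, |translationNumber (A i : CircleDeg1Lift) - r i| ≤ 1 / ((n : ℝ) + 1)) ∧
      θ - 1 / ((n : ℝ) + 1) < translationNumber (FreeGroup.lift A w : CircleDeg1Lift)) :
    θ = ∑ i : ι, (expSum w i : ℝ) * r i := by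
  obtain ⟨i₀⟩ : Nonempty ι := by
    cases hL : w.toWord with
    | nil => rw [hL] at hw; simp at hw
    | cons x L => exact ⟨x.1⟩
  obtain ⟨ℓ, hℓdef⟩ : ∃ ℓ : ℕ, ℓ = w.toWord.length := ⟨_, rfl⟩
  rw [← hℓdef] at hw
  have hℓ := hw
  have hltw : ∀ A ∈ K, translationNumber (prodSeq (gg i₀ w A) ℓ : CircleDeg1Lift) ≤ θ := by
    intro A hA
    rw [hℓdef, ← word_eq i₀]
    rcases hlt with h | h
    · exact (h A hA).le
    · exact h.2 A hA
  choose A' hA' hA1 ht' using happ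
  have ht'' : ∀ n : ℕ, θ - 1 / ((n : ℝ) + 1)
      < translationNumber (prodSeq (gg i₀ w (A' n)) ℓ : CircleDeg1Lift) := by
    intro n
    have := ht' n
    rwa [word_eq i₀, ← hℓdef] at this
  obtain ⟨C, hC⟩ : ∃ C : ℝ, C = ∑ i : ι, |r i| + 2 := ⟨_, rfl⟩
  have hlev : ∀ n : ℕ, ∃ (ψ : G) (f : ℕ → G),
      (∀ x : ℝ, ∑ k ∈ Finset.range ℓ, f k x = ℓ * x) ∧
      (∀ k, k + 1 < ℓ → ∀ x : ℝ,
        f (k + 1) ((ψ * gg i₀ w (A' n) k * ψ⁻¹ : G) x) = f k x) ∧
      (∀ x : ℝ, |f 0 ((ψ * gg i₀ w (A' n) (ℓ - 1) * ψ⁻¹ : G) x) - f (ℓ - 1) x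
        - translationNumber (prodSeq (gg i₀ w (A' n)) ℓ : CircleDeg1Lift)|
          ≤ 1 / ((n + 1 : ℕ) : ℝ)) ∧
      (∀ k, k < ℓ → ∀ x : ℝ, |f k x - x| ≤ ℓ * (C + 3)) := by
    intro n
    refine level_functions ℓ (n + 1) hℓ (Nat.succ_pos n) (gg i₀ w (A' n)) C ?_
    intro k _
    unfold gg
    have p3 : 1 / ((n : ℝ) + 1) ≤ 1 := by
      rw [div_le_one (by positivity)]
      linarith [Nat.cast_nonneg (α := ℝ) n]
    have p4 : |r (wc i₀ w k)| ≤ ∑ i : ι, |r i| :=
      Finset.single_le_sum (f := fun i => |r i|) (fun i _ => abs_nonneg _) (Finset.mem_univ _)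
    have hr : |translationNumber (A' n (wc i₀ w k) : CircleDeg1Lift)| ≤ C := by
      have h1 := hA1 n (wc i₀ w k)
      have := neg_abs_le (r (wc i₀ w k))
      have := le_abs_self (r (wc i₀ w k))
      rw [abs_le] at h1 ⊢
      constructor <;> linarith [h1.1, h1.2]
    rcases ws_pm i₀ w k with h | h
    · rw [h, zpow_one]
      exact hr
    · rw [h, translationNumber_zpow]
      push_cast
      rw [neg_one_mul, abs_neg]
      exact hr
  choose ψ f hf1 hf2 hf3 hf4 using hlev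
  obtain ⟨F, hF1, hF2, hF3, hF4⟩ := limit_functions ℓ (ℓ * (C + 3))
    (fun n k x => f n k x) (fun n k _ => (f n k : CircleDeg1Lift).monotone)
    (fun n k _ x => (f n k : CircleDeg1Lift).map_add_one x)
    (fun n k hk x y => j16444_lip (hf1 n) hk x y) (fun n k hk x => hf4 n k hk x)
  obtain ⟨g, hg⟩ : ∃ g : ℕ → ℕ → G, g = fun n =>
    gg i₀ w (fun i => ψ n * A' n i * (ψ n)⁻¹) := ⟨_, rfl⟩
  have hg' : ∀ n k, g n k = ψ n * gg i₀ w (A' n) k * (ψ n)⁻¹ := by
    intro n k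
    rw [hg]
    exact gg_conj i₀ w _ _ k
  obtain ⟨t, ht⟩ : ∃ t : ℕ → ℝ, t = fun n =>
    translationNumber (prodSeq (gg i₀ w (A' n)) ℓ : CircleDeg1Lift) := ⟨_, rfl⟩
  have h1 : ∀ n k, k + 1 < ℓ → ∀ x : ℝ, f n (k + 1) (g n k x) = f n k x := by
    intro n k hk x
    rw [hg']
    exact hf2 n k hk x
  have h2 : ∀ n, ∀ x : ℝ, |f n 0 (g n (ℓ - 1) x) - f n (ℓ - 1) x - t n| ≤
      1 / ((n : ℝ) + 1) := by
    intro n x
    rw [hg', ht]
    have := hf3 n x
    push_cast at this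
    exact this
  have htl : ∀ n : ℕ, θ - 1 / ((n : ℝ) + 1) ≤ t n := by
    intro n
    rw [ht]
    exact (ht'' n).le
  have htu : ∀ n : ℕ, t n ≤ θ := by
    intro n
    rw [ht]
    exact hltw _ (hA' n)
  have hgcls : ∀ n k, g n k = (fun i => ψ n * A' n i * (ψ n)⁻¹) (wc i₀ w k) ^ ws i₀ w k := by
    intro n k
    rw [hg]
    rfl
  -- the perturbation of the generator `i`
  have hle : ∀ (i : ι) (n : ℕ) (u : G), ∃ B ∈ K,
      prodSeq (fun k => u ^ (dl (wc i₀ w) i k) * g n k * u ^ (-(dl (wc i₀ w) i k))) ℓ =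
        FreeGroup.lift B w := by
    intro i n u
    refine ⟨_, hK _ (hA' n) (fun j => if j = i then u * ψ n else ψ n), ?_⟩
    rw [word_eq i₀, ← hℓdef]
    have h4 : prodSeq (fun k => u ^ (dl (wc i₀ w) i k) * g n k * u ^ (-(dl (wc i₀ w) i k))) ℓ =
        prodSeq (gg i₀ w (fun j => (if j = i then u * ψ n else ψ n) * A' n j *
          (if j = i then u * ψ n else ψ n)⁻¹)) ℓ := by
      refine j16444_congr fun k _ => ?_
      rw [hgcls]
      unfold gg dl
      beta_reduce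
      by_cases hk : wc i₀ w k = i
      · simp only [hk, if_true]
        have e5 : u * ψ n * A' n i * (u * ψ n)⁻¹ = u * (ψ n * A' n i * (ψ n)⁻¹) * u⁻¹ := by
          group
        rw [e5, conj_zpow (a := u), zpow_one, zpow_neg, zpow_one]
      · simp only [hk, if_false]
        rw [zpow_zero, neg_zero, zpow_zero, one_mul, mul_one]
    exact h4
  have hε : ∀ i k, expo ℓ (dl (wc i₀ w) i) k = 0 ∨ expo ℓ (dl (wc i₀ w) i) k = 1 ∨
      expo ℓ (dl (wc i₀ w) i) k = -1 := by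
    intro i k
    unfold expo dl
    split_ifs <;> simp
  have hconst : ∀ i : ι, ∀ x y, ∑ k ∈ Finset.range ℓ,
        ((expo ℓ (dl (wc i₀ w) i) k : ℤ) : ℝ) * F k x
      = ∑ k ∈ Finset.range ℓ, ((expo ℓ (dl (wc i₀ w) i) k : ℤ) : ℝ) * F k y := by
    intro i
    rcases hlt with hlt | ⟨hirr, hlt⟩
    · have hnc := nc_of_limit_S θ ℓ hℓ (dl (wc i₀ w) i) g f t F h1 h2 htl hF1 hF2 hF3 hF4
        (fun n u => by
          obtain ⟨B, hB, hB2⟩ := hle i n u
          rw [hB2]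
          exact hlt B hB)
      have hsys : SysS θ ℓ (expo ℓ (dl (wc i₀ w) i)) F :=
        ⟨hℓ, hF1, hF2, hF3, fun u N M hN hM ts q hq => hnc u N M hN hM ts q hq⟩
      exact const_of_deriv ℓ F (fun k => ((expo ℓ (dl (wc i₀ w) i) k : ℤ) : ℝ)) ℓ hF3
        (fun y ρ hρ => slip_zero θ ℓ _ F hsys (hε i) y ρ hρ)
    · have hnc := nc_of_limit θ ℓ hℓ (dl (wc i₀ w) i) g f t F h1 h2 htl hF1 hF2 hF3 hF4
        (fun n u => by
          obtain ⟨B, hB, hB2⟩ := hle i n u
          rw [hB2]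
          exact hlt B hB)
      have hsys : Sys θ ℓ (expo ℓ (dl (wc i₀ w) i)) F :=
        ⟨hℓ, hF1, hF2, hF3, fun u N M hN hM ts q hq => hnc u N M hN hM ts q hq⟩
      refine const_of_deriv ℓ F (fun k => ((expo ℓ (dl (wc i₀ w) i) k : ℤ) : ℝ)) ℓ hF3
        (fun y ρ hρ => ?_)
      by_contra hne
      have hρ0 : ∀ k, k < ℓ → 0 ≤ ρ k := by
        intro k hk
        rw [← (hρ k hk).deriv]
        exact (hF1 k hk).deriv_nonneg
      exact comb θ hirr ℓ _ ρ _ hℓ (hε i) hρ0 hne (ncs_of_sys θ ℓ _ F hsys (hε i) y ρ hρ)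
  -- the averages
  rw [← sum_letters i₀ w r, ← hℓdef]
  obtain ⟨Nι, hNι⟩ : ∃ Nι : ℝ, Nι = (Fintype.card ι : ℝ) := ⟨_, rfl⟩
  have hNι0 : 0 ≤ Nι := by rw [hNι]; exact Nat.cast_nonneg _
  obtain ⟨W, hW⟩ : ∃ W : ℝ, W = 2 * ((ℓ : ℕ) : ℝ) := ⟨_, rfl⟩
  have hW0 : 0 ≤ W := by rw [hW]; positivity
  have habs : ∀ i k, |((expo ℓ (dl (wc i₀ w) i) k : ℤ) : ℝ)| ≤ 2 := by
    intro i k
    rcases hε i k with h | h | h <;> rw [h] <;> norm_num
  have key : ∀ ε : ℝ, 0 < ε →
      |θ - ∑ k ∈ Finset.range ℓ, (ws i₀ w k : ℝ) * r (wc i₀ w k)| ≤ ε := by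
    intro ε hε0
    obtain ⟨n₀, hn₀⟩ := exists_nat_gt ((2 + (ℓ : ℝ)) / (ε / 2))
    have hden : 0 < 4 * (Nι * W + 1) := by positivity
    have hη : 0 < ε / (4 * (Nι * W + 1)) := by positivity
    obtain ⟨n, hn, hfn⟩ := hF4 _ hη n₀
    have hD : ∀ i x, |∑ k ∈ Finset.range ℓ,
      ((expo ℓ (dl (wc i₀ w) i) k : ℤ) : ℝ) * f n k x
        - ∑ k ∈ Finset.range ℓ, ((expo ℓ (dl (wc i₀ w) i) k : ℤ) : ℝ) * F k 0|
          ≤ W * (ε / (4 * (Nι * W + 1))) := by
      intro i x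
      rw [← hconst i x 0, ← Finset.sum_sub_distrib]
      refine le_trans (Finset.abs_sum_le_sum_abs _ _) ?_
      calc ∑ k ∈ Finset.range ℓ, |((expo ℓ (dl (wc i₀ w) i) k : ℤ) : ℝ) * f n k x
            - ((expo ℓ (dl (wc i₀ w) i) k : ℤ) : ℝ) * F k x|
          ≤ ∑ k ∈ Finset.range ℓ, 2 * (ε / (4 * (Nι * W + 1))) := by
            refine Finset.sum_le_sum fun k hk => ?_
            rw [← mul_sub, abs_mul]
            exact mul_le_mul (habs i k) (hfn k (Finset.mem_range.1 hk) x) (abs_nonneg _)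
              (by norm_num)
        _ = W * (ε / (4 * (Nι * W + 1))) := by
            rw [Finset.sum_const, Finset.card_range, nsmul_eq_mul, hW]
            ring
    have hT := avg_identity ℓ hℓ (fun i => ψ n * A' n i * (ψ n)⁻¹) (wc i₀ w) (ws i₀ w)
      (ws_pm i₀ w) (g n) (hgcls n) (f n) (t n) (1 / ((n : ℝ) + 1)) (h1 n) (h2 n) _ _ hD
    rw [← hNι] at hT
    simp only [tau_conj] at hT
    have htn : |θ - t n| ≤ 1 / ((n : ℝ) + 1) := by
      rw [abs_le]; constructor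
      · have : (0 : ℝ) ≤ 1 / ((n : ℝ) + 1) := by positivity
        linarith [htu n]
      · linarith [htl n]
    have hWb : 2 * (Nι * (W * (ε / (4 * (Nι * W + 1))))) ≤ ε / 2 := by
      have e : 2 * (Nι * (W * (ε / (4 * (Nι * W + 1))))) = (ε / 2) * (Nι * W / (Nι * W + 1)) := by
        field_simp
        ring
      rw [e]
      have h1 : Nι * W / (Nι * W + 1) ≤ 1 := by
        rw [div_le_one (by positivity)]; linarith
      nlinarith
    have hdif : |∑ k ∈ Finset.range ℓ, (ws i₀ w k : ℝ) *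
          translationNumber (A' n (wc i₀ w k) : CircleDeg1Lift)
        - ∑ k ∈ Finset.range ℓ, (ws i₀ w k : ℝ) * r (wc i₀ w k)| ≤ ℓ * (1 / ((n : ℝ) + 1)) := by
      rw [← Finset.sum_sub_distrib]
      refine le_trans (Finset.abs_sum_le_sum_abs _ _) ?_
      calc ∑ k ∈ Finset.range ℓ, |(ws i₀ w k : ℝ) *
            translationNumber (A' n (wc i₀ w k) : CircleDeg1Lift)
            - (ws i₀ w k : ℝ) * r (wc i₀ w k)|
          ≤ ∑ k ∈ Finset.range ℓ, 1 / ((n : ℝ) + 1) := by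
            refine Finset.sum_le_sum fun k _ => ?_
            rw [← mul_sub, abs_mul]
            have h5 : |(ws i₀ w k : ℝ)| = 1 := by
              rcases ws_pm i₀ w k with h | h <;> rw [h] <;> norm_num
            rw [h5, one_mul]
            exact hA1 n _
        _ = ℓ * (1 / ((n : ℝ) + 1)) := by
            rw [Finset.sum_const, Finset.card_range, nsmul_eq_mul]
    have hsmall : (2 + (ℓ : ℝ)) * (1 / ((n : ℝ) + 1)) ≤ ε / 2 := by
      rw [div_lt_iff₀ (by linarith)] at hn₀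
      rw [mul_one_div, div_le_iff₀ (by positivity)]
      have : (n₀ : ℝ) ≤ n := by exact_mod_cast hn
      nlinarith
    rw [abs_le] at hT htn hdif ⊢
    constructor <;> linarith [hT.1, hT.2, htn.1, htn.2, hdif.1, hdif.2]
  have h0 : |θ - ∑ k ∈ Finset.range ℓ, (ws i₀ w k : ℝ) * r (wc i₀ w k)| ≤ 0 :=
    le_of_forall_pos_le_add (by simpa using key)
  have := abs_nonpos_iff.1 h0
  linarith

end Principle

end Pool.Agent.H73.SL
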