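import Pool.Agent.H73.SL.Approx

set_option autoImplicit false

open CircleDeg1Lift Set

namespace Pool.Agent.H73.SL

open Pool.Agent.Helper29.Rot

variable {ι : Type} [Fintype ι] [DecidableEq ι]

theorem principle (w : FreeGroup ι) (K : Set (ι → G))
    (hK : ∀ A ∈ K, ∀ u : ι → G, (fun i => u i * A i * (u i)⁻¹) ∈ K) (r : ι → ℝ) (θ : ℝ)
    (hlt : (∀ A ∈ K, translationNumber (FreeGroup.lift A w : CircleDeg1Lift) < θ) ∨
      (Irrational θ ∧ ∀ A ∈ K, translationNumber (FreeGroup.lift A w : CircleDeg1Lift) ≤ θ))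
    (happ : ∀ n : ℕ, ∃ A ∈ K,
      (∀ i, |translationNumber (A i : CircleDeg1Lift) - r i| ≤ 1 / ((n : ℝ) + 1)) ∧
      θ - 1 / ((n : ℝ) + 1) < translationNumber (FreeGroup.lift A w : CircleDeg1Lift)) :
    θ = ∑ i : ι, (expSum w i : ℝ) * r i := by
  rcases Nat.eq_zero_or_pos w.toWord.length with h0 | h0
  · have hw : w = 1 := by
      rw [List.length_eq_zero_iff] at h0
      exact FreeGroup.toWord_eq_nil_iff.1 h0
    subst hw
    have e1 : ∀ A : ι → G, translationNumber (FreeGroup.lift A (1 : FreeGroup ι) : CircleDeg1Lift)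
        = 0 := by
      intro A
      rw [map_one, Units.val_one, translationNumber_one]
    have e2 : ∑ i : ι, (expSum (1 : FreeGroup ι) i : ℝ) * r i = 0 := by
      refine Finset.sum_eq_zero fun i _ => ?_
      simp [expSum]
    rw [e2]
    have hle : θ ≤ 0 := by
      by_contra hcon
      push Not at hcon
      obtain ⟨n, hn⟩ := exists_nat_one_div_lt hcon
      obtain ⟨A, -, -, h⟩ := happ n
      rw [e1] at h
      linarith
    obtain ⟨A, hA, -, -⟩ := happ 0
    rcases hlt with h | ⟨-, h⟩
    · have := h A hA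
      rw [e1] at this
      linarith
    · have := h A hA
      rw [e1] at this
      linarith
  · exact principle_aux w h0 K hK r θ hlt happ

/-- the value at the translations -/
theorem lift_translate (w : FreeGroup ι) (r : ι → ℝ) :
    translationNumber (FreeGroup.lift (fun i => translate (Multiplicative.ofAdd (r i))) w :
      CircleDeg1Lift) = ∑ i : ι, (expSum w i : ℝ) * r i := by
  have h : FreeGroup.lift (fun i => translate (Multiplicative.ofAdd (r i)))
      = CircleDeg1Lift.translate.comp (FreeGroup.lift (fun i => Multiplicative.ofAdd (r i))) := by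
    apply FreeGroup.ext_hom
    intro i
    rw [FreeGroup.lift_apply_of, MonoidHom.comp_apply, FreeGroup.lift_apply_of]
  rw [h, MonoidHom.comp_apply, ← lin_eq]
  exact translationNumber_translate _

/-- **The dichotomy.** Let `K` be a class of tuples of elements of `G` which is invariant under
conjugating the entries independently. If `θ` is an upper bound of the `rot w(A)`, `A ∈ K`, and the
limit of such values along tuples with `rot A_i → r_i`, then `θ` is the value of `w` at the
translations by the `r_i`, or `θ` is rational and attained in `K`. -/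
theorem dichotomy (w : FreeGroup ι) (K : Set (ι → G))
    (hK : ∀ A ∈ K, ∀ u : ι → G, (fun i => u i * A i * (u i)⁻¹) ∈ K) (r : ι → ℝ) (θ : ℝ)
    (hle : ∀ A ∈ K, translationNumber (FreeGroup.lift A w : CircleDeg1Lift) ≤ θ)
    (happ : ∀ n : ℕ, ∃ A ∈ K,
      (∀ i, |translationNumber (A i : CircleDeg1Lift) - r i| ≤ 1 / ((n : ℝ) + 1)) ∧
      θ - 1 / ((n : ℝ) + 1) < translationNumber (FreeGroup.lift A w : CircleDeg1Lift)) :
    θ = ∑ i : ι, (expSum w i : ℝ) * r i ∨ ((∃ q : ℚ, θ = q) ∧
      ∃ A ∈ K, translationNumber (FreeGroup.lift A w : CircleDeg1Lift) = θ) := by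
  by_cases h1 : Irrational θ
  · exact Or.inl (principle w K hK r θ (Or.inr ⟨h1, hle⟩) happ)
  · have h2 : ∃ q : ℚ, θ = q := by
      unfold Irrational at h1
      push Not at h1
      obtain ⟨q, hq⟩ := h1
      exact ⟨q, hq.symm⟩
    by_cases h3 : ∃ A ∈ K, translationNumber (FreeGroup.lift A w : CircleDeg1Lift) = θ
    · exact Or.inr ⟨h2, h3⟩
    · push Not at h3
      exact Or.inl (principle w K hK r θ
        (Or.inl fun A hA => lt_of_le_of_ne (hle A hA) (h3 A hA)) happ)

omit [Fintype ι] [DecidableEq ι] in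
theorem conj_class (r : ι → ℝ) : ∀ A ∈ {A : ι → G | ∀ i,
    IsConj (A i) (translate (Multiplicative.ofAdd (r i)))}, ∀ u : ι → G,
      (fun i => u i * A i * (u i)⁻¹) ∈ {A : ι → G | ∀ i,
    IsConj (A i) (translate (Multiplicative.ofAdd (r i)))} :=
  fun A hA u i => (isConj_iff.2 ⟨u i, rfl⟩ : IsConj (A i) (u i * A i * (u i)⁻¹)).symm.trans (hA i)

/-- `R(w, r-)` is a maximum; it is rational or the value at the translations. -/
theorem conj_max (w : FreeGroup ι) (r : ι → ℝ) :
    sSup (conjSet w r) ∈ conjSet w r ∧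
      ((∃ q : ℚ, sSup (conjSet w r) = q) ∨ sSup (conjSet w r) = ∑ i : ι, (expSum w i : ℝ) * r i) := by
  have hb : BddAbove (conjSet w r) := (rotSetI_bdd w r).mono (conjSet_sub w r)
  have hd := dichotomy w {A : ι → G | ∀ i, IsConj (A i) (translate (Multiplicative.ofAdd (r i)))}
    (conj_class r) r (sSup (conjSet w r)) (fun A hA => le_csSup hb ⟨A, hA, rfl⟩) (fun n => by
      obtain ⟨t, ⟨A, hA, rfl⟩, ht⟩ := exists_lt_of_lt_csSup (conjSet_nonempty w r)
        (show sSup (conjSet w r) - 1 / ((n : ℝ) + 1) < sSup (conjSet w r) by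
          have : 0 < 1 / ((n : ℝ) + 1) := by positivity
          linarith)
      refine ⟨A, hA, fun i => ?_, ht⟩
      rw [tau_of_conj (hA i), sub_self, abs_zero]
      positivity)
  rcases hd with h | ⟨h1, A, hA, h2⟩
  · refine ⟨?_, Or.inr h⟩
    rw [h, ← lift_translate]
    exact ⟨_, fun _ => IsConj.refl _, rfl⟩
  · exact ⟨⟨A, hA, h2.symm⟩, Or.inl h1⟩

/-- the same for `R(w, r)` -/
theorem rot_max (w : FreeGroup ι) (r : ι → ℝ) :
    sSup (rotSetI w r) ∈ rotSetI w r ∧
      ((∃ q : ℚ, sSup (rotSetI w r) = q) ∨ sSup (rotSetI w r) = ∑ i : ι, (expSum w i : ℝ) * r i) := by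
  have hne : (rotSetI w r).Nonempty := (conjSet_nonempty w r).mono (conjSet_sub w r)
  have hd := dichotomy w {A : ι → G | ∀ i, translationNumber (A i : CircleDeg1Lift) = r i}
    (fun A hA u i => by rw [tau_conj]; exact hA i) r (sSup (rotSetI w r))
    (fun A hA => le_csSup (rotSetI_bdd w r) ⟨A, hA, rfl⟩) (fun n => by
      obtain ⟨t, ⟨A, hA, rfl⟩, ht⟩ := exists_lt_of_lt_csSup hne
        (show sSup (rotSetI w r) - 1 / ((n : ℝ) + 1) < sSup (rotSetI w r) by
          have : 0 < 1 / ((n : ℝ) + 1) := by positivity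
          linarith)
      refine ⟨A, hA, fun i => ?_, ht⟩
      rw [hA i, sub_self, abs_zero]
      positivity)
  rcases hd with h | ⟨h1, A, hA, h2⟩
  · refine ⟨?_, Or.inr h⟩
    rw [h, ← lift_translate]
    exact ⟨_, fun i => translationNumber_translate _, rfl⟩
  · exact ⟨⟨A, hA, h2.symm⟩, Or.inl h1⟩

/-- The weak slippery theorem for an arbitrary word in any finite number of generators. -/
theorem slippery_all (w : FreeGroup ι) (r : ι → ℝ)
    (h : ∀ r' : ι → ℝ, (∀ i, r' i < r i) → sSup (rotSetI w r') < sSup (conjSet w r)) :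
    sSup (conjSet w r) = ∑ i : ι, (expSum w i : ℝ) * r i := by
  have hb : BddAbove (conjSet w r) := (rotSetI_bdd w r).mono (conjSet_sub w r)
  have hlub := isLUB_csSup (conjSet_nonempty w r) hb
  refine principle w {A : ι → G | ∀ i, translationNumber (A i : CircleDeg1Lift) < r i}
    (fun A hA u i => by rw [tau_conj]; exact hA i) r _ (Or.inl fun A hA => ?_) (fun n => ?_)
  · refine lt_of_le_of_lt ?_ (h (fun i => translationNumber (A i : CircleDeg1Lift)) hA)
    exact le_csSup (rotSetI_bdd _ _) ⟨A, fun _ => rfl, rfl⟩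
  · obtain ⟨A, hA, h2⟩ := approx_below_I w r _ hlub (1 / ((n : ℝ) + 1)) (by positivity)
    refine ⟨A, fun i => (hA i).2, fun i => ?_, h2⟩
    have : 0 ≤ 1 / ((n : ℝ) + 1) := by positivity
    rw [abs_le]
    constructor <;> linarith [(hA i).1, (hA i).2]

end Pool.Agent.H73.SL
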